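import Mathlib

set_option autoImplicit false

namespace Pool.Agent.Results.MP_76b2fe_co.ThreeFree

/-- State of an ordered pair of vertices (used in the proof only): non-adjacent, forward arc, backward arc -/
inductive St
  | n | f | b
  deriving DecidableEq, Fintype

def rv : St → St
  | .n => .n
  | .f => .b
  | .b => .f

def l0 : St → St → ℤ
  | .n, .n => 3
  | .n, _ => -4
  | _, .n => -4
  | .f, .f => -2
  | .b, .b => -2
  | .f, .b => 3
  | .b, .f => 3

def l2 : St → St → ℤ
  | .n, .n => 0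
  | .n, _ => 1
  | _, .n => -1
  | _, _ => 0

def l5 : St → St → ℤ
  | .n, .f => 1
  | .b, .n => -1
  | .f, .f => -1
  | .b, .b => 1
  | _, _ => 0

def lam : St → St → St → ℤ
  | .n, .f, .n => -1368
  | .n, .f, .f => -106
  | .n, .f, .b => -244
  | .f, .f, .f => -752
  | _, _, _ => 0

def sg : St → ℤ
  | .n => 0
  | .f => 1
  | .b => -1

/-- pair part, depends on the type of the pair (x0,x1) -/
def pr : St → St → St → St → St → ℤ
  | .n, p, q, r, s => 9 * (l0 p r * l0 q s) + 45 * (l2 p r * l2 q s)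
  | .f, p, q, r, s => 342 + 176 * (l5 p r * l5 q s)
  | .b, _, _, _, _ => 0

/-- unsymmetrised integrand; arguments s01 s02 s03 s12 s13 -/
def g (s01 s02 s03 s12 s13 : St) : ℤ :=
  123 - pr s01 s02 s03 s12 s13 - lam s01 s02 s12 * sg s03

def G (c : Fin 4 → Fin 4 → St) : ℤ :=
  g (c 0 1) (c 0 2) (c 0 3) (c 1 2) (c 1 3) +
  g (rv (c 0 1)) (rv (c 0 2)) (rv (c 0 3)) (rv (c 1 2)) (rv (c 1 3))

def cfg (a b c d e h : St) : Fin 4 → Fin 4 → St :=
  ![![.n, a, b, c], ![rv a, .n, d, e], ![rv b, rv d, .n, h], ![rv c, rv e, rv h, .n]]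

def P : Fin 24 → Fin 4 → Fin 4 := ![![0, 1, 2, 3], ![0, 1, 3, 2], ![0, 2, 1, 3], ![0, 2, 3, 1], ![0, 3, 1, 2], ![0, 3, 2, 1], ![1, 0, 2, 3], ![1, 0, 3, 2], ![1, 2, 0, 3], ![1, 2, 3, 0], ![1, 3, 0, 2], ![1, 3, 2, 0], ![2, 0, 1, 3], ![2, 0, 3, 1], ![2, 1, 0, 3], ![2, 1, 3, 0], ![2, 3, 0, 1], ![2, 3, 1, 0], ![3, 0, 1, 2], ![3, 0, 2, 1], ![3, 1, 0, 2], ![3, 1, 2, 0], ![3, 2, 0, 1], ![3, 2, 1, 0]]

def tri (x y z : St) : Bool :=
  match x, y, z with
  | .f, .f, .b => true
  | .b, .b, .f => true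
  | _, _, _ => false

set_option maxRecDepth 100000 in
theorem claimA : ∀ a b c d e h : St,
    (tri a d b || tri a e c || tri b h c || tri d h e) = false →
    0 ≤ ∑ k : Fin 24, G (fun i j => cfg a b c d e h (P k i) (P k j)) := by
  decide +kernel


section
variable {V : Type*} [Fintype V]

theorem sum_comp (σ : Fin 4 → Fin 4) (hσ : Function.Bijective σ) (F : (Fin 4 → V) → ℤ) :
    ∑ x : Fin 4 → V, F (fun i => x (σ i)) = ∑ x : Fin 4 → V, F x := by
  let e : Fin 4 ≃ Fin 4 := Equiv.ofBijective σ hσ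
  exact Equiv.sum_comp (Equiv.arrowCongr e.symm (Equiv.refl V)) F

theorem P_bij : ∀ k, Function.Bijective (P k) := by
  decide

theorem sum_four (F : (Fin 4 → V) → ℤ) :
    ∑ x : Fin 4 → V, F x = ∑ a : V, ∑ b : V, ∑ c : V, ∑ d : V, F ![a, b, c, d] := by
  let e : V × V × V × V ≃ (Fin 4 → V) :=
    { toFun := fun p => ![p.1, p.2.1, p.2.2.1, p.2.2.2]
      invFun := fun x => (x 0, x 1, x 2, x 3)
      left_inv := fun p => rfl
      right_inv := fun x => by
        funext i; fin_cases i <;> rfl }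
  rw [← Equiv.sum_comp e F, Fintype.sum_prod_type]
  refine Finset.sum_congr rfl (fun a _ => ?_)
  rw [Fintype.sum_prod_type]
  refine Finset.sum_congr rfl (fun b _ => ?_)
  rw [Fintype.sum_prod_type]
  rfl

theorem claimB (s : V → V → St) (hbal : ∀ a, ∑ d, sg (s a d) = 0) :
    ∑ a, ∑ b, ∑ c, ∑ d, g (s a b) (s a c) (s a d) (s b c) (s b d) ≤
      123 * (Fintype.card V : ℤ) ^ 4
        - 342 * (Fintype.card V : ℤ) ^ 2 * ∑ a, ∑ b, (if s a b = St.f then 1 else 0) := by
  have key : ∀ a b, ∑ c, ∑ d, g (s a b) (s a c) (s a d) (s b c) (s b d) ≤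
      123 * (Fintype.card V : ℤ) ^ 2
        - 342 * (Fintype.card V : ℤ) ^ 2 * (if s a b = St.f then 1 else 0) := by
    intro a b
    have h1 : ∑ c, ∑ d, g (s a b) (s a c) (s a d) (s b c) (s b d) =
        123 * (Fintype.card V : ℤ) ^ 2 - ∑ c, ∑ d, pr (s a b) (s a c) (s a d) (s b c) (s b d) := by
      have h2 : ∀ c, ∑ d, g (s a b) (s a c) (s a d) (s b c) (s b d) =
          123 * (Fintype.card V : ℤ) - ∑ d, pr (s a b) (s a c) (s a d) (s b c) (s b d) := by
        intro c
        unfold g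
        rw [Finset.sum_sub_distrib, Finset.sum_sub_distrib, ← Finset.mul_sum, hbal]
        simp [mul_comm]
      rw [Finset.sum_congr rfl (fun c _ => h2 c), Finset.sum_sub_distrib]
      simp only [Finset.sum_const, Finset.card_univ, nsmul_eq_mul]
      ring
    rw [h1]
    have h3 : 342 * (Fintype.card V : ℤ) ^ 2 * (if s a b = St.f then 1 else 0) ≤
        ∑ c, ∑ d, pr (s a b) (s a c) (s a d) (s b c) (s b d) := by
      cases hs : s a b with
      | n =>
        have e : ∑ c, ∑ d, pr St.n (s a c) (s a d) (s b c) (s b d) =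
            9 * ((∑ c, l0 (s a c) (s b c)) * (∑ c, l0 (s a c) (s b c))) +
            45 * ((∑ c, l2 (s a c) (s b c)) * (∑ c, l2 (s a c) (s b c))) := by
          rw [Finset.sum_mul_sum, Finset.sum_mul_sum, Finset.mul_sum, Finset.mul_sum,
            ← Finset.sum_add_distrib]
          refine Finset.sum_congr rfl (fun c _ => ?_)
          rw [Finset.mul_sum, Finset.mul_sum, ← Finset.sum_add_distrib]
          rfl
        rw [e]
        have := mul_self_nonneg (∑ c, l0 (s a c) (s b c))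
        have := mul_self_nonneg (∑ c, l2 (s a c) (s b c))
        simp
        linarith
      | f =>
        have e : ∑ c, ∑ d, pr St.f (s a c) (s a d) (s b c) (s b d) =
            342 * (Fintype.card V : ℤ) ^ 2 +
            176 * ((∑ c, l5 (s a c) (s b c)) * (∑ c, l5 (s a c) (s b c))) := by
          have : 342 * (Fintype.card V : ℤ) ^ 2 = ∑ c : V, ∑ d : V, (342 : ℤ) := by
            simp only [Finset.sum_const, Finset.card_univ, nsmul_eq_mul]; ring
          rw [this, Finset.sum_mul_sum, Finset.mul_sum, ← Finset.sum_add_distrib]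
          refine Finset.sum_congr rfl (fun c _ => ?_)
          rw [Finset.mul_sum, ← Finset.sum_add_distrib]
          rfl
        rw [e]
        have := mul_self_nonneg (∑ c, l5 (s a c) (s b c))
        simp
        linarith
      | b =>
        have e : ∑ c, ∑ d, pr St.b (s a c) (s a d) (s b c) (s b d) = 0 := by
          simp [pr]
        rw [e]; simp
    linarith
  calc ∑ a, ∑ b, ∑ c, ∑ d, g (s a b) (s a c) (s a d) (s b c) (s b d)
      ≤ ∑ a : V, ∑ b : V, (123 * (Fintype.card V : ℤ) ^ 2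
        - 342 * (Fintype.card V : ℤ) ^ 2 * (if s a b = St.f then 1 else 0)) :=
        Finset.sum_le_sum (fun a _ => Finset.sum_le_sum (fun b _ => key a b))
    _ = _ := by
        simp only [Finset.sum_sub_distrib, ← Finset.mul_sum]
        simp only [Finset.sum_const, Finset.card_univ, nsmul_eq_mul]
        ring


variable [DecidableEq V]

def st (E : Finset (V × V)) (u v : V) : St :=
  if (u, v) ∈ E then St.f else if (v, u) ∈ E then St.b else St.n

theorem out_eq (E : Finset (V × V)) (v : V) :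
    ((E.filter (fun e => e.1 = v)).card : ℤ) = ∑ u, if (v, u) ∈ E then 1 else 0 := by
  rw [Finset.sum_ite, Finset.sum_const_zero, add_zero, Finset.sum_const, nsmul_eq_mul, mul_one]
  norm_cast
  apply Finset.card_bij (fun e _ => e.2)
  · intro e he
    simp only [Finset.mem_filter] at he
    simp only [Finset.mem_filter, Finset.mem_univ, true_and]
    obtain ⟨h1, h2⟩ := he
    subst h2
    simpa using h1
  · intro e he f hf hef
    simp only [Finset.mem_filter] at he hf
    exact Prod.ext (he.2.trans hf.2.symm) hef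
  · intro b hb
    simp only [Finset.mem_filter, Finset.mem_univ, true_and] at hb
    exact ⟨(v, b), by simp [hb], rfl⟩

theorem in_eq (E : Finset (V × V)) (v : V) :
    ((E.filter (fun e => e.2 = v)).card : ℤ) = ∑ u, if (u, v) ∈ E then 1 else 0 := by
  rw [Finset.sum_ite, Finset.sum_const_zero, add_zero, Finset.sum_const, nsmul_eq_mul, mul_one]
  norm_cast
  apply Finset.card_bij (fun e _ => e.1)
  · intro e he
    simp only [Finset.mem_filter] at he
    simp only [Finset.mem_filter, Finset.mem_univ, true_and]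
    obtain ⟨h1, h2⟩ := he
    subst h2
    simpa using h1
  · intro e he f hf hef
    simp only [Finset.mem_filter] at he hf
    exact Prod.ext hef (he.2.trans hf.2.symm)
  · intro b hb
    simp only [Finset.mem_filter, Finset.mem_univ, true_and] at hb
    exact ⟨(b, v), by simp [hb], rfl⟩

theorem card_eq (E : Finset (V × V)) : (E.card : ℤ) = ∑ u, ∑ v, if (u, v) ∈ E then 1 else 0 := by
  rw [← Finset.sum_product']
  simp

end

theorem result {V : Type*} [Fintype V] [DecidableEq V] (E : Finset (V × V))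
    (hloop : ∀ v : V, (v, v) ∉ E)
    (hbal : ∀ v : V, (E.filter (fun e => e.1 = v)).card = (E.filter (fun e => e.2 = v)).card)
    (hE : 41 * (Fintype.card V) ^ 2 < 114 * E.card) :
    (∃ u v : V, u ≠ v ∧ (u, v) ∈ E ∧ (v, u) ∈ E) ∨
    (∃ u v w : V, u ≠ v ∧ v ≠ w ∧ u ≠ w ∧ (u, v) ∈ E ∧ (v, w) ∈ E ∧ (w, u) ∈ E) := by
  classical
  by_contra hcon
  simp only [not_or] at hcon
  obtain ⟨hc2, hc3⟩ := hcon
  have d2 : ∀ u v, (u, v) ∈ E → (v, u) ∉ E := by
    intro u v h1 h2
    have huv : u ≠ v := by rintro rfl; exact hloop _ h1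
    exact hc2 ⟨u, v, huv, h1, h2⟩
  have d3 : ∀ u v w, (u, v) ∈ E → (v, w) ∈ E → (w, u) ∉ E := by
    intro u v w h1 h2 h3
    have huv : u ≠ v := by rintro rfl; exact hloop _ h1
    have hvw : v ≠ w := by rintro rfl; exact hloop _ h2
    have huw : u ≠ w := by rintro rfl; exact hloop _ h3
    exact hc3 ⟨u, v, w, huv, hvw, huw, h1, h2, h3⟩
  obtain ⟨s, hs⟩ : ∃ s : V → V → St, ∀ u v, s u v = st E u v := ⟨_, fun _ _ => rfl⟩
  have sf : ∀ u v, s u v = St.f ↔ (u, v) ∈ E := by
    intro u v; rw [hs]; unfold st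
    by_cases h : (u, v) ∈ E
    · simp [h]
    · by_cases h' : (v, u) ∈ E <;> simp [h, h']
  have sb : ∀ u v, s u v = St.b ↔ (v, u) ∈ E := by
    intro u v; rw [hs]; unfold st
    by_cases h : (u, v) ∈ E
    · simp [h, d2 _ _ h]
    · by_cases h' : (v, u) ∈ E <;> simp [h, h']
  have sself : ∀ u, s u u = St.n := by
    intro u; rw [hs]; unfold st; simp [hloop u]
  have srv : ∀ u v, s v u = rv (s u v) := by
    intro u v; rw [hs, hs]; unfold st
    by_cases h : (u, v) ∈ E
    · simp [h, d2 _ _ h, rv]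
    · by_cases h' : (v, u) ∈ E <;> simp [h, h', rv]
  have hsg : ∀ a d, sg (s a d) = (if (a, d) ∈ E then (1:ℤ) else 0) - (if (d, a) ∈ E then 1 else 0) := by
    intro a d; rw [hs]; unfold st
    by_cases h : (a, d) ∈ E
    · simp [h, d2 _ _ h, sg]
    · by_cases h' : (d, a) ∈ E <;> simp [h, h', sg]
  have hb1 : ∀ a, ∑ d, sg (s a d) = 0 := by
    intro a
    rw [Finset.sum_congr rfl (fun d _ => hsg a d), Finset.sum_sub_distrib, ← out_eq, ← in_eq, hbal]
    ring
  have hsgrv : ∀ x, sg (rv x) = - sg x := by intro x; cases x <;> rfl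
  have hb2 : ∀ a, ∑ d, sg (rv (s a d)) = 0 := by
    intro a
    rw [Finset.sum_congr rfl (fun d _ => hsgrv _), Finset.sum_neg_distrib, hb1]; ring
  have hm1 : ∑ a, ∑ b, (if s a b = St.f then (1:ℤ) else 0) = E.card := by
    rw [card_eq]
    refine Finset.sum_congr rfl (fun a _ => Finset.sum_congr rfl (fun b _ => ?_))
    simp only [sf]
  have hrvf : ∀ x, rv x = St.f ↔ x = St.b := by intro x; cases x <;> simp [rv]
  have hm2 : ∑ a, ∑ b, (if rv (s a b) = St.f then (1:ℤ) else 0) = E.card := by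
    rw [card_eq, Finset.sum_comm]
    refine Finset.sum_congr rfl (fun a _ => Finset.sum_congr rfl (fun b _ => ?_))
    simp only [hrvf, sb]
  -- upper bound
  have hup : ∑ x : Fin 4 → V, G (fun i j => s (x i) (x j)) ≤
      2 * (123 * (Fintype.card V : ℤ) ^ 4 - 342 * (Fintype.card V : ℤ) ^ 2 * E.card) := by
    rw [sum_four]
    have e1 := claimB s hb1
    have e2 := claimB (fun u v => rv (s u v)) hb2
    rw [hm1] at e1
    rw [hm2] at e2
    have e3 : ∑ a : V, ∑ b : V, ∑ c : V, ∑ d : V,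
        G (fun i j => s ((![a, b, c, d] : Fin 4 → V) i) ((![a, b, c, d] : Fin 4 → V) j)) =
        ∑ a, ∑ b, ∑ c, ∑ d, g (s a b) (s a c) (s a d) (s b c) (s b d) +
        ∑ a, ∑ b, ∑ c, ∑ d, g (rv (s a b)) (rv (s a c)) (rv (s a d)) (rv (s b c)) (rv (s b d)) := by
      simp only [← Finset.sum_add_distrib]
      rfl
    rw [e3]
    linarith
  -- lower bound
  have hlow : 0 ≤ ∑ x : Fin 4 → V, G (fun i j => s (x i) (x j)) := by
    have h24 : (24 : ℤ) * ∑ x : Fin 4 → V, G (fun i j => s (x i) (x j)) =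
        ∑ x : Fin 4 → V, ∑ k : Fin 24, G (fun i j => s (x (P k i)) (x (P k j))) := by
      rw [Finset.sum_comm]
      rw [Finset.sum_congr rfl (fun k _ => sum_comp (P k) (P_bij k)
        (fun x => G (fun i j => s (x i) (x j))))]
      simp
    have hpt : ∀ x : Fin 4 → V, 0 ≤ ∑ k : Fin 24, G (fun i j => s (x (P k i)) (x (P k j))) := by
      intro x
      have hcfg : ∀ i j, s (x i) (x j) = cfg (s (x 0) (x 1)) (s (x 0) (x 2)) (s (x 0) (x 3))
          (s (x 1) (x 2)) (s (x 1) (x 3)) (s (x 2) (x 3)) i j := by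
        intro i j
        fin_cases i <;> fin_cases j <;> simp [cfg, sself, ← srv]
      have htri : ∀ u v w, tri (s u v) (s v w) (s u w) = false := by
        intro u v w
        cases h1 : s u v <;> cases h2 : s v w <;> cases h3 : s u w <;> try rfl
        · exact absurd ((sb _ _).mp h3) (d3 _ _ _ ((sf _ _).mp h1) ((sf _ _).mp h2))
        · exact absurd ((sf _ _).mp h3) (d3 _ _ _ ((sb _ _).mp h2) ((sb _ _).mp h1) · |>.elim)
      have := claimA (s (x 0) (x 1)) (s (x 0) (x 2)) (s (x 0) (x 3))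
          (s (x 1) (x 2)) (s (x 1) (x 3)) (s (x 2) (x 3)) (by simp [htri])
      simp only [← hcfg] at this
      exact this
    have : 0 ≤ (24 : ℤ) * ∑ x : Fin 4 → V, G (fun i j => s (x i) (x j)) := by
      rw [h24]; exact Finset.sum_nonneg (fun x _ => hpt x)
    linarith
  have hE' : 41 * (Fintype.card V : ℤ) ^ 2 < 114 * E.card := by exact_mod_cast hE
  have hn : 0 < (Fintype.card V : ℤ) := by
    rcases Nat.eq_zero_or_pos (Fintype.card V) with h | h
    · exfalso
      have : IsEmpty V := Fintype.card_eq_zero_iff.mp h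
      have h0 : E = ∅ := Finset.eq_empty_of_isEmpty E
      rw [h, h0] at hE; simp at hE
    · exact_mod_cast h
  have h5 : 0 ≤ 2 * (123 * (Fintype.card V : ℤ) ^ 4 - 342 * (Fintype.card V : ℤ) ^ 2 * E.card) :=
    le_trans hlow hup
  have h6 : 0 < (Fintype.card V : ℤ) ^ 2 := by positivity
  nlinarith [mul_pos h6 (sub_pos.mpr hE')]

end Pool.Agent.Results.MP_76b2fe_co.ThreeFree
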